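import Pool.Agent.H70.ES.Sc
import Pool.Agent.H93.EA.Asm

/-!
# H98.ES.Fin: `Marks k r c` for coprime `c < r` gives the conjecture for all `m`
-/

set_option autoImplicit false

namespace Pool.Agent.H98.ES

open Finset Pool.Agent.H68 Pool.Agent.H93.EL Pool.Agent.H93.EA Pool.Agent.H70.ES

/-- without free lines there is nothing to do -/
theorem marks_zero (k r : ℕ) : Marks k r 0 := by
  refine ⟨0, le_rfl, fun α _ N ρ _ _ => ⟨fun _ => 0, fun _ => Nat.zero_le _, fun _ => ∅,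
    fun _ => ∅, fun _ => ∅, ?_, ?_, ?_⟩⟩
  · intro u v
    simp
  · intro j _
    simp
  · intro i hi
    exact absurd hi (Nat.not_lt_zero _)

theorem sch_zero (L : ℕ) : Sch L 0 := by
  refine ⟨0, le_rfl, fun α _ N ρ _ _ => ⟨fun _ => 0, fun _ => 0, fun _ => Nat.zero_le _, ?_⟩⟩
  simp

theorem sch_of_marks (h : ∀ k r c : ℕ, 1 ≤ k → 0 < c → c < r → Nat.Coprime c r → Marks k r c)
    {L r : ℕ} (h2 : 2 * r ≤ L) (hc : Nat.Coprime L r) : Sch L r := by
  rcases Nat.eq_zero_or_pos r with h0 | h0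
  · subst h0
    exact sch_zero L
  have hq : 2 ≤ L / r := (Nat.le_div_iff_mul_le h0).2 h2
  obtain ⟨k, hk⟩ : ∃ k, L / r = k + 1 := ⟨L / r - 1, by omega⟩
  have hL : (k + 1) * r + L % r = L := by
    rw [← hk]
    have := Nat.div_add_mod L r
    rw [mul_comm] at this
    exact this
  have hm : L % r < r := Nat.mod_lt _ h0
  have hM : Marks k r (L % r) := by
    rcases Nat.eq_zero_or_pos (L % r) with hz | hz
    · rw [hz]
      exact marks_zero k r
    · refine h k r _ (by omega) hz hm ?_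
      have : Nat.gcd r L = Nat.gcd (L % r) r := Nat.gcd_rec r L
      rw [Nat.Coprime, ← this, Nat.gcd_comm]
      exact hc
  have := sch_of h0 hM
  rwa [hL] at this

/-- the conjecture of Erdős, Lovász, Simmons and Straus, from the marks -/
theorem full_of_marks
    (h : ∀ k r c : ℕ, 1 ≤ k → 0 < c → c < r → Nat.Coprime c r → Marks k r c) {n m : ℕ}
    (hmn : m ≤ n.choose 2) : (m : ℝ) ^ 2 / (n : ℝ) ^ 2 ≤ (fval 2 2 1 m n : ℝ) := by
  rcases le_or_gt (n ^ 2) (4 * m) with h4 | h4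
  · exact Pool.Agent.H56.EH.half hmn h4
  rcases Nat.eq_zero_or_pos n with h0 | hn
  · subst h0
    simp
  have hL : 0 < n ^ 2 := by positivity
  set g := Nat.gcd (n ^ 2) (2 * m) with hg
  have hg0 : 0 < g := Nat.gcd_pos_of_pos_left _ hL
  obtain ⟨L, hL'⟩ : g ∣ n ^ 2 := Nat.gcd_dvd_left _ _
  obtain ⟨r, hr'⟩ : g ∣ 2 * m := Nat.gcd_dvd_right _ _
  have hL0 : 0 < L := by
    rcases Nat.eq_zero_or_pos L with h0 | h0
    · rw [h0, mul_zero] at hL'
      omega
    · exact h0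
  have hcop : Nat.Coprime L r := by
    have h1 : Nat.gcd (n ^ 2 / g) (2 * m / g) = 1 := by
      rw [Nat.gcd_div (Nat.gcd_dvd_left _ _) (Nat.gcd_dvd_right _ _)]
      exact Nat.div_self hg0
    have e1 : n ^ 2 / g = L := by
      rw [hL', Nat.mul_div_cancel_left _ hg0]
    have e2 : 2 * m / g = r := by
      rw [hr', Nat.mul_div_cancel_left _ hg0]
    rw [e1, e2] at h1
    exact h1
  have h2 : 2 * r ≤ L := by
    have h3 : g * (2 * r) ≤ g * L := by
      have e : g * (2 * r) = 2 * (g * r) := by ring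
      rw [e, ← hL', ← hr']
      omega
    exact Nat.le_of_mul_le_mul_left h3 hg0
  have hw := window (L := L) (r := r) hL0 (sch_of_marks h h2 hcop) hmn
  refine le_trans (le_of_eq ?_) hw
  have hg1 : (g : ℝ) ≠ 0 := by exact_mod_cast hg0.ne'
  have hL1 : (L : ℝ) ≠ 0 := by exact_mod_cast hL0.ne'
  have hn0 : (n : ℝ) ≠ 0 := by exact_mod_cast hn.ne'
  have eL : (n : ℝ) ^ 2 = g * L := by exact_mod_cast hL'
  have er : 2 * (m : ℝ) = g * r := by exact_mod_cast hr'
  have ex : (r : ℝ) / L = 2 * m / (n : ℝ) ^ 2 := by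
    rw [eL, er]
    field_simp
  rw [ex]
  field_simp
  ring

end Pool.Agent.H98.ES
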